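import Pool.Agent.H16.PW.Real

/-!
# Finiteness of the polarized integral systems over number fields without CM subfields

`F` is a number field which contains no CM field, for instance a number field with a real embedding
(all totally real fields, all fields of odd degree). `S` and `S'` are finite sets of primes, `w` is a
natural number and `h r` (`0 ≤ r ≤ w`) are natural numbers. The integral systems `(T_ℓ)_ℓ` over `F` of
the theorem (`PolarizedSystem` of the library) have the properties in the problem of the realisations
of a pure motive of weight `w` over `F` with a lattice: Hodge numbers `h^{r,w-r} = h r`, pure good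
reduction outside `S`, semistable reduction in `S`. In addition they have a polarization
`T_ℓ × T_ℓ → ℤ_ℓ(-w)` whose degree is prime to `ℓ` for `ℓ` outside `S'` (`S'` contains `S` and the small
primes, for which the theory of Fontaine and Laffaille does not apply to `T_ℓ / ℓ`). The
representations may be reducible, also modulo `ℓ`.

The condition on the Hodge numbers is `Rigid w h`: there are no multiplicities `m r`, not all zero, with
`m r + m (w - r) ≤ h r` and with the mean weight `w / 2`. It holds if all Hodge numbers are at most `1` and
the rank is at most `5`, or at most `7` if `w` is odd (for example `w = 3` and `h = (1, 1, 1, 1)`,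
Calabi-Yau threefolds with `h^{2,1} = 1`).

**Theorem.** Up to isomorphism of the `T_ℓ` for all primes `ℓ` there are only finitely many such systems.

Proof. The determinant of an isotropic stable subspace of `V_ℓ` (or of `T_ℓ / ℓ`) is a character `φ` of
the absolute Galois group of `F` which is unramified outside `ℓ` and equal to the power `-a(𝔩)` of the
cyclotomic character on the inertia groups of the places `𝔩` above `ℓ`. By Artin's reciprocity law
`∏_σ σ(u) ^ (2 a(𝔩_σ)) = 1` for all units `u` of `F` (modulo all powers of `ℓ`; or modulo `ℓ`, and then
exactly if `ℓ` is large, since there are only finitely many possibilities for the exponents). By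
Dirichlet's unit theorem and Galois theory `a` is constant if `F` contains no CM field (the argument of
Weil for algebraic Hecke characters, `Pool.Agent.H16.PW.par`). By Minkowski's theorem for the transfer to
`ℚ` and the purity the mean of the weights of the subspace is `w / 2`, now at each place above `ℓ`, and
this is excluded by the Hodge numbers. So the polarization splits `V_ℓ` and almost all `T_ℓ / ℓ` into
orthogonal sums of irreducible representations, and self-dual lattices are unique.
-/

set_option autoImplicit false

namespace Pool.Agent.Results.MP_78e9a5_nt.PolarizedNoCMSubfields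

open Pool.Agent.R390.SF Pool.Agent.R390.SF.IntegralSystem NumberField

/-- **Finiteness of the polarized systems over number fields without CM subfields.** -/
theorem result (F : SubFld ℚ) [FiniteDimensional ℚ F]
    (hF : (∀ L : SubFld ℚ, L ≤ F → ¬ IsCMField L) ∨ Nonempty (F →+* ℝ))
    (n : ℕ) (hn : 0 < n) (w : ℕ) (h : ℕ → ℕ)
    (hh : Rigid w h ∨ ((∀ r ≤ w, h r ≤ 1) ∧
      (∑ r ∈ Finset.range (w + 1), h r ≤ 5 ∨ (Odd w ∧ ∑ r ∈ Finset.range (w + 1), h r ≤ 7))))
    (S S' : Finset ℕ) :
    ∃ (m : ℕ) (T : Fin m → IntegralSystem F n), (∀ i, (T i).PolarizedSystem S S' w h) ∧
      ∀ T' : IntegralSystem F n, T'.PolarizedSystem S S' w h →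
        ∃ i, IsomorphicOn Set.univ (T i) T' :=
  Pool.Agent.H16.PW.pol_finiteness (Pool.Agent.H16.PW.noCM hF) hn w h
    (hh.elim id fun h1 => rigid_of_card h1.1 h1.2) S S'

end Pool.Agent.Results.MP_78e9a5_nt.PolarizedNoCMSubfields
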