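import Pool.Agent.H16.PW.Ola

/-!
# Finiteness of the pure integral systems of rank two over all number fields

`F` is a number field (any one), `S` is a finite set of primes, `w` is a natural number and `Λ` is a set
of primes (for example all primes). The integral systems `(T_ℓ)_ℓ` of rank `2` over `F` of the theorem
(`PureSystem` of the library) have the properties in the problem of the realisations of a pure motive
of weight `w` over `F` with a lattice: pure good reduction outside `S`, semistable reduction in `S`,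
Hodge-Tate weights `≥ 0` at the places above `ℓ`. The representations on `V_ℓ` are semisimple for `ℓ`
in `Λ` (a part of the conjecture of Tate). There is no condition on the Hodge numbers, no polarization,
no condition on the field `F`, and the `V_ℓ` may be reducible (complex multiplication over `F`).

**Theorem.** There are only finitely many such systems, up to isomorphism of the `T_ℓ` for all `ℓ` in
`Λ`; and for each of them and almost all `ℓ` in `Λ` all the Galois stable lattices in `V_ℓ` are
isomorphic.

Proof. Let `T` be such a system and assume that `T_ℓ / ℓ` has a stable line for infinitely many `ℓ`, with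
character `φ_ℓ` and weights `a_ℓ(𝔩)`, `𝔩` above `ℓ`. By Artin's reciprocity law
`φ_ℓ (Frob_v) ^ 2 = ∏_τ τ(β) ^ (2 a_ℓ(𝔩_τ))` modulo `ℓ` for the principal prime ideals `v = (β)`. For
infinitely many `ℓ` the exponents `m_τ = a_ℓ(𝔩_τ)` are the same, so `A(β) = ∏_τ τ(β) ^ (2 m_τ)` is the
square of a root of the Frobenius polynomial at `v`, for all the principal prime ideals `v = (β)` of
degree one outside a finite set. If `β ≡ 1` modulo `ℓ ^ k` then `A(β) ≡ 1`, and by the existence theorem
of class field theory the commutators `d` of the Galois group are limits of Frobenius elements at such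
`v`. So for every `ℓ` one is an eigenvalue of the square of `d` on `V_ℓ`, and `d` has the trace `2` or
`-2`; the second case is impossible if `ℓ` is odd and `T_ℓ / ℓ` reducible. By Kolchin's theorem and
the semisimplicity the Galois group acts on `V_ℓ` through a commutative group for these `ℓ`. Then all
elements act through polynomials in one Frobenius element with distinct eigenvalues, or through
scalars, and the lattice is unique if `ℓ` does not divide the discriminant. The finiteness follows
with the criterion in the hand-in `ResidualIrreducibility` of the library.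
-/

set_option autoImplicit false

namespace Pool.Agent.Results.MP_78e9a5_nt.RankTwoAllNumberFields

open Pool.Agent.R390.SF Pool.Agent.R390.SF.IntegralSystem NumberField

/-- The representations on `V_ℓ` are semisimple for all `ℓ` in `Λ`: every stable subspace has a stable
complement. -/
def SemisimpleOn {F : SubFld ℚ} {n : ℕ} (Λ : Set ℕ) (T : IntegralSystem F n) : Prop :=
  ∀ (ℓ : ℕ) [Fact ℓ.Prime], ℓ ∈ Λ → ∀ U : Submodule ℚ_[ℓ] (Fin n → ℚ_[ℓ]), IsStable (T.rat ℓ) U →
    ∃ U' : Submodule ℚ_[ℓ] (Fin n → ℚ_[ℓ]), IsStable (T.rat ℓ) U' ∧ IsCompl U U'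

/-- All the Galois stable lattices in `V_ℓ` are isomorphic to `T_ℓ`: if `ρ` is a representation on
`ℤ_ℓ ^ n` which becomes isomorphic to `V_ℓ` over `ℚ_ℓ` then it is isomorphic to `T_ℓ`. -/
def UniqueLattice {F : SubFld ℚ} {n : ℕ} (ℓ : ℕ) [Fact ℓ.Prime] (T : IntegralSystem F n) : Prop :=
  ∀ ρ : F.fixingSubgroup →* GL (Fin n) ℤ_[ℓ],
    (∃ A : GL (Fin n) ℚ_[ℓ], ∀ g, Matrix.GeneralLinearGroup.map (algebraMap ℤ_[ℓ] ℚ_[ℓ]) (ρ g) =
      A⁻¹ * T.rat ℓ g * A) → ∃ A : GL (Fin n) ℤ_[ℓ], ∀ g, ρ g = A * T.rho ℓ g * A⁻¹

/-- **Finiteness of the systems of rank two over all number fields.** -/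
theorem result (F : SubFld ℚ) [FiniteDimensional ℚ F] (w : ℕ) (S : Finset ℕ) (Λ : Set ℕ) :
    (∃ (m : ℕ) (T : Fin m → IntegralSystem F 2),
      (∀ i, (T i).PureSystem S w ∧ SemisimpleOn Λ (T i)) ∧
      ∀ T' : IntegralSystem F 2, T'.PureSystem S w → SemisimpleOn Λ T' →
        ∃ i, IsomorphicOn Λ (T i) T') ∧
    ∀ T : IntegralSystem F 2, T.PureSystem S w → SemisimpleOn Λ T →
      ∃ N : ℕ, ∀ (ℓ : ℕ) [Fact ℓ.Prime], ℓ ∈ Λ → N < ℓ → UniqueLattice ℓ T := by
  refine ⟨?_, fun T hT hss => ?_⟩
  · obtain ⟨m, T, h1, h2⟩ := Pool.Agent.N180.SR.finite_of_one (F := F) two_pos (w := w) (S := S)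
      (Λ := Λ) (Cl := fun T : IntegralSystem F 2 => T.PureSystem S w ∧ SemisimpleOn Λ T)
      (fun T hT => hT.1.toGoodSystem) (fun T hT => hT.2)
      (fun T hT => Pool.Agent.H16.PW.one_two hT.1 hT.2)
    exact ⟨m, T, h1, fun T' h3 h4 => h2 T' ⟨h3, h4⟩⟩
  · obtain ⟨N, hN⟩ := Pool.Agent.H16.PW.one_two hT hss
    refine ⟨N, fun ℓ hℓ hΛ hlt ρ hρ => ?_⟩
    obtain ⟨A, hA⟩ := hN ℓ hΛ hlt (Pool.Agent.N180.SR.changeAt T ℓ ρ)
      { poly := rfl
        away := fun ℓ' _ hne => Pool.Agent.N180.SR.changeAt_ne T ℓ ρ ℓ' hne
        rat := by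
          intro _
          obtain ⟨A, hA⟩ := hρ
          refine ⟨A, fun g => ?_⟩
          rw [← hA g]
          unfold IntegralSystem.rat
          rw [Pool.Agent.N180.SR.changeAt_self]
          rfl }
    refine ⟨A, fun g => ?_⟩
    rw [← hA g, Pool.Agent.N180.SR.changeAt_self]

end Pool.Agent.Results.MP_78e9a5_nt.RankTwoAllNumberFields
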