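import Pool.Agent.H16.PW.Real
import Pool.Graph.R_seed8.R390.SF.Main

/-!
# Finiteness of the pure integral systems of rank two over number fields without CM subfields

`F` is a number field which contains no CM field, for instance a number field with a real embedding
(all totally real fields, all fields of odd degree). `S` is a finite set of primes and `w`, `r` are
natural numbers with `2 r < w`. The integral systems `(T_ℓ)_ℓ` of rank `2` over `F` of the theorem
(`HodgeSystem` of the library) have all the properties in the problem of the realisations of a pure
motive of weight `w` over `F` with a lattice: Hodge numbers `h^{r,w-r} = h^{w-r,r} = 1`, pure good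
reduction outside `S`, semistable reduction in `S`. There is no other condition (no polarization, no
semisimplicity, no condition on the Frobenius elements or on the monodromy).

**Theorem.** There are only finitely many such systems, up to isomorphism of the `T_ℓ` for all `ℓ`, and
for each of them there are only finitely many Galois stable lattices in the adelic realisation up to
multiplication by rational numbers.

The condition on `F` is necessary for the second assertion: if `F` contains an imaginary quadratic
field then there are elliptic curves with complex multiplication over `F`, and `V_ℓ` is reducible for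
the primes `ℓ` which split.

Proof. The determinant of a stable line in `V_ℓ` (or in `T_ℓ / ℓ`) is a character `φ` of the absolute
Galois group of `F` which is unramified outside `ℓ` and equal to the power `-a(𝔩)` of the cyclotomic
character on the inertia groups of the places `𝔩` above `ℓ`, `a(𝔩) ∈ {r, w - r}`. By Artin's reciprocity
law `∏_σ σ(u) ^ (2 a(𝔩_σ)) = 1` for all units `u` of `F` (modulo all powers of `ℓ`; or modulo `ℓ`, and then
exactly if `ℓ` is large, since there are only finitely many possibilities for the exponents). By
Dirichlet's unit theorem and Galois theory `a` is constant if `F` contains no CM field (the argument of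
Weil for algebraic Hecke characters, `Pool.Agent.H16.PW.par`), and the purity excludes this. So `V_ℓ` and
almost all `T_ℓ / ℓ` are irreducible.
-/

set_option autoImplicit false

namespace Pool.Agent.Results.MP_78e9a5_nt.RankTwoNoCMSubfields

open Pool.Agent.R390.SF Pool.Agent.R390.SF.IntegralSystem NumberField

/-- **Finiteness of the systems of rank two over number fields without CM subfields.** -/
theorem result (F : SubFld ℚ) [FiniteDimensional ℚ F]
    (hF : (∀ L : SubFld ℚ, L ≤ F → ¬ IsCMField L) ∨ Nonempty (F →+* ℝ))
    (w r : ℕ) (hr : 2 * r < w) (S : Finset ℕ) :
    (∃ (m : ℕ) (T : Fin m → IntegralSystem F 2), (∀ i, (T i).HodgeSystem S w (rankTwo r w)) ∧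
      ∀ T' : IntegralSystem F 2, T'.HodgeSystem S w (rankTwo r w) →
        ∃ i, IsomorphicOn Set.univ (T i) T') ∧
    ∀ T : IntegralSystem F 2, T.HodgeSystem S w (rankTwo r w) →
      ∃ (m : ℕ) (L : Fin m → ∀ (ℓ : ℕ) [Fact ℓ.Prime], Submodule ℤ_[ℓ] (Fin 2 → ℚ_[ℓ])),
        (∀ i, T.IsLattice (L i)) ∧
          ∀ L' : (∀ (ℓ : ℕ) [Fact ℓ.Prime], Submodule ℤ_[ℓ] (Fin 2 → ℚ_[ℓ])), T.IsLattice L' →
            ∃ i, ProportionalOn Set.univ (L i) L' := by
  have hI : ∀ T : IntegralSystem F 2, T.HodgeSystem S w (rankTwo r w) → T.IsIrreducible Set.univ :=
    fun T hT => Pool.Agent.H16.PW.irr_two (Pool.Agent.H16.PW.noCM hF) hr hT Set.univ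
  exact ⟨finiteness two_pos w S Set.univ (fun T => T.HodgeSystem S w (rankTwo r w))
    (fun T hT => hT.toGoodSystem) hI, fun T hT => lattices two_pos (hI T hT)⟩

end Pool.Agent.Results.MP_78e9a5_nt.RankTwoNoCMSubfields
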